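import Pool.Agent.helper97.NA.SpecE

/-!
# Row XPB: the partition lemma
-/

set_option autoImplicit false

namespace Pool.Agent.NAB

open Pool.Agent.helper58.DC Pool.Agent.DI Pool.Agent.GR Pool.Agent.OB Pool.Agent.DR Pool.Agent.FI Pool.Agent.FI3 Pool.Agent.FI4 Pool.Agent.FI4I Pool.Agent.FI4E Pool.Agent.LE Pool.Agent.L5

open Classical in
theorem XPB_one {α : Type} (A : Finset α) (r : α → α → Prop) (hr : ∀ a, r a a) (hs : ∀ a a', r a a' → r a' a)
    (ht : ∀ a a' a'', r a a' → r a' a'' → r a a'') (a₀ : α) (ha₀ : a₀ ∈ A) :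
    ∑ a ∈ A.filter (fun a => r a₀ a), (((A.filter (fun a' => r a a')).card : ℂ))⁻¹ = 1 := by
  have h1 : ∀ a ∈ A.filter (fun a => r a₀ a), (((A.filter (fun a' => r a a')).card : ℂ))⁻¹ =
      (((A.filter (fun a' => r a₀ a')).card : ℂ))⁻¹ := by
    intro a ha
    rw [Finset.mem_filter] at ha
    have h2 : A.filter (fun a' => r a a') = A.filter (fun a' => r a₀ a') := by
      refine Finset.filter_congr fun a' _ => ?_
      exact ⟨fun h => ht _ _ _ ha.2 h, fun h => ht _ _ _ (hs _ _ ha.2) h⟩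
    rw [h2]
  rw [Finset.sum_congr rfl h1, Finset.sum_const, nsmul_eq_mul]
  refine mul_inv_cancel₀ ?_
  have h3 : 0 < (A.filter (fun a' => r a₀ a')).card := Finset.card_pos.2 ⟨a₀, Finset.mem_filter.2 ⟨ha₀, hr a₀⟩⟩
  exact_mod_cast h3.ne'

open Classical in
theorem XPB_fin {α β : Type} (A : Finset α) (B : Finset β) (w : α → ℂ) (v : β → ℂ) (c : ℂ) (r : α → α → Prop) (S : β → α → Prop)
    (h1 : ∀ b ∈ B, ∃ a ∈ A, S b a) (hr : ∀ a, r a a) (hs : ∀ a a', r a a' → r a' a)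
    (ht : ∀ a a' a'', r a a' → r a' a'' → r a a'') (h2 : ∀ b ∈ B, ∀ a ∈ A, ∀ a' ∈ A, S b a → (S b a' ↔ r a a'))
    (h3 : ∀ a ∈ A, ∑ b ∈ B.filter (fun b => S b a), v b = c * ∑ a' ∈ A.filter (fun a' => r a a'), w a') :
    ∑ b ∈ B, v b = c * ∑ a ∈ A, w a := by
  set u : α → ℂ := fun a => (((A.filter (fun a' => r a a')).card : ℂ))⁻¹ with hu
  have e1 : ∀ b ∈ B, ∑ a ∈ A.filter (fun a => S b a), u a = 1 := by
    intro b hb
    obtain ⟨a₀, ha₀, hS⟩ := h1 b hb
    have h4 : A.filter (fun a => S b a) = A.filter (fun a => r a₀ a) :=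
      Finset.filter_congr fun a ha => h2 b hb a₀ ha₀ a ha hS
    rw [h4]
    exact XPB_one A r hr hs ht a₀ ha₀
  have e2 : ∀ a' ∈ A, ∑ a ∈ A.filter (fun a => r a a'), u a = 1 := by
    intro a' ha'
    have h4 : A.filter (fun a => r a a') = A.filter (fun a => r a' a) :=
      Finset.filter_congr fun a _ => ⟨fun h => hs _ _ h, fun h => hs _ _ h⟩
    rw [h4]
    exact XPB_one A r hr hs ht a' ha'
  calc ∑ b ∈ B, v b = ∑ b ∈ B, ∑ a ∈ A, if S b a then u a * v b else 0 := by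
        refine Finset.sum_congr rfl fun b hb => ?_
        rw [← Finset.sum_filter, ← Finset.sum_mul, e1 b hb, one_mul]
    _ = ∑ a ∈ A, ∑ b ∈ B, if S b a then u a * v b else 0 := Finset.sum_comm
    _ = ∑ a ∈ A, c * ∑ a' ∈ A, if r a a' then u a * w a' else 0 := by
        refine Finset.sum_congr rfl fun a ha => ?_
        rw [← Finset.sum_filter, ← Finset.sum_filter, ← Finset.mul_sum, ← Finset.mul_sum, h3 a ha]
        ring
    _ = c * ∑ a' ∈ A, ∑ a ∈ A, if r a a' then u a * w a' else 0 := by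
        rw [← Finset.mul_sum, Finset.sum_comm]
    _ = c * ∑ a ∈ A, w a := by
        congr 1
        refine Finset.sum_congr rfl fun a' ha' => ?_
        rw [← Finset.sum_filter, ← Finset.sum_mul, e2 a' ha', one_mul]

open Classical in
theorem XPB : XPB_stmt := by
  intro α β A B hA hB w v c r S h1 hr hs ht h2 h3
  have hAm : ∀ a, a ∈ hA.toFinset ↔ a ∈ A := fun a => hA.mem_toFinset
  have hBm : ∀ b, b ∈ hB.toFinset ↔ b ∈ B := fun b => hB.mem_toFinset
  rw [finsum_mem_eq_finite_toFinset_sum _ hA, finsum_mem_eq_finite_toFinset_sum _ hB]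
  refine XPB_fin hA.toFinset hB.toFinset w v c r S ?_ hr hs ht ?_ ?_
  · intro b hb
    obtain ⟨a, ha, hS⟩ := h1 b ((hBm b).1 hb)
    exact ⟨a, (hAm a).2 ha, hS⟩
  · intro b hb a ha a' ha' hS
    exact h2 b ((hBm b).1 hb) a ((hAm a).1 ha) a' ((hAm a').1 ha') hS
  · intro a ha
    have h := h3 a ((hAm a).1 ha)
    have f1 : {b | b ∈ B ∧ S b a} = ((hB.toFinset.filter (fun b => S b a) : Finset β) : Set β) := by
      ext b
      simp [hBm]
    have f2 : {a' | a' ∈ A ∧ r a a'} = ((hA.toFinset.filter (fun a' => r a a') : Finset α) : Set α) := by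
      ext a'
      simp [hAm]
    rw [f1, f2, finsum_mem_coe_finset, finsum_mem_coe_finset] at h
    exact h

end Pool.Agent.NAB
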